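import Mathlib

/-!
# The polarized relation at the dominating number after adding random reals

Let `κ = 𝔡` and `λ > κ`.  We show that adding `λ` random reals preserves the equation `𝔡 = κ` and
always produces a model in which the polarized relation `(𝔡 over ω) → (𝔡 over ω)^{1,1}_2` FAILS:
the first `κ` random reals themselves are a counterexample.

## The forcing language

A sentence of the forcing language of a preordered set `P` of conditions is represented by the set
of the conditions which force it.  Negation, conjunction and universal quantification are the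
primitive connectives, with their usual forcing clauses; the other connectives are defined from
them classically.  A name for a subset of a ground model set `X` is a map `N` sending `x : X` to a set
of conditions; it names the set of all `x` such that the generic filter meets `N x`.  Every subset of `X`
in the extension has such a name.  Names for subsets of `X × Y` (relations, functions, families of
subsets of `Y` indexed by `X`, …) are maps `X → Y → Set P`.
-/

open MeasureTheory ProbabilityTheory Cardinal Set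
open scoped ENNReal

namespace Pool.Agent.Results.MP_95a70f_lc.RandomRealsFail

section Forcing

variable {P : Type} [Preorder P]

/-- `p` forces `not φ` iff no `q ≤ p` forces `φ`. -/
def fnot (φ : Set P) : Set P := {p | ∀ q ≤ p, q ∉ φ}

/-- `p` forces `φ and ψ` iff it forces both. -/
def fand (φ ψ : Set P) : Set P := {p | p ∈ φ ∧ p ∈ ψ}

/-- `p` forces `for all i, φ i` iff it forces every `φ i`. -/
def fall {ι : Sort*} (φ : ι → Set P) : Set P := {p | ∀ i, p ∈ φ i}

/-- `φ implies ψ` is `not (φ and not ψ)`. -/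
def fimp (φ ψ : Set P) : Set P := fnot (fand φ (fnot ψ))

/-- `φ if and only if ψ`. -/
def fiff (φ ψ : Set P) : Set P := fand (fimp φ ψ) (fimp ψ φ)

/-- `there is i with φ i` is `not for all i, not φ i`. -/
def fex {ι : Sort*} (φ : ι → Set P) : Set P := fnot (fall fun i => fnot (φ i))

/-- An absolute statement about ground model objects. -/
def fground (h : Prop) : Set P := {_p | h}

/-- `p` forces that the generic filter meets the set `N` of conditions:
the set of the `r` lying below some member of `N` is dense below `p`. -/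
def meets (N : Set P) : Set P := {p | ∀ q ≤ p, ∃ r ≤ q, ∃ s ∈ N, r ≤ s}

/-- The relation named by `R` is a function from `X` to `Y`. -/
def IsFun {X Y : Type} (R : X → Y → Set P) : Set P :=
  fand (fall fun x => fex fun y => meets (R x y))
    (fall fun x => fall fun y => fall fun y' =>
      fimp (fand (meets (R x y)) (meets (R x y'))) (fground (y = y')))

/-- The relation named by `R` is an injective function from `X` into the subset of `Y` named by
`A`. -/
def IsInjInto {X Y : Type} (R : X → Y → Set P) (A : Y → Set P) : Set P :=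
  fand (IsFun R) (fand
    (fall fun x => fall fun y => fimp (meets (R x y)) (meets (A y)))
    (fall fun x => fall fun x' => fall fun y =>
      fimp (fand (meets (R x y)) (meets (R x' y))) (fground (x = x'))))

/-- The subset of `X` named by `A` has the same cardinality as `X`: there is an injective function
from `X` into it. -/
def FullSize {X : Type} (A : X → Set P) : Set P :=
  fex fun R : X → X → Set P => IsInjInto R A

/-- The subset of `ℕ` named by `B` is infinite. -/
def IsInfinite (B : ℕ → Set P) : Set P :=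
  fall fun n : ℕ => fex fun m : ℕ => fand (fground (n ≤ m)) (meets (B m))

/-- The colouring named by `c` is constant on `A × B` with value `i` (`true` is membership in the
subset of `X × ℕ` named by `c`). -/
def IsConstOn {X : Type} (c : X → ℕ → Set P) (A : X → Set P) (B : ℕ → Set P) (i : Bool) : Set P :=
  fall fun x => fall fun n => fimp (fand (meets (A x)) (meets (B n)))
    (fiff (meets (c x n)) (fground (i = true)))

/-- The polarized relation `(κ over ω) → (κ over ω)^{1,1}_2` holds in the extension, `κ = |X|`: for every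
colouring of `X × ℕ` with two colours there are `A ⊆ X` with `|A| = |X|` and an infinite `B ⊆ ℕ` such
that the colouring is constant on `A × B`. -/
def Polarized (P : Type) [Preorder P] (X : Type) : Set P :=
  fall fun c : X → ℕ → Set P => fex fun A : X → Set P => fex fun B : ℕ → Set P =>
    fex fun i : Bool => fand (FullSize A) (fand (IsInfinite B) (IsConstOn c A B i))

/-- The function named by `g` is eventually bounded by the function named by `f`. -/
def EventuallyLe (g f : ℕ → ℕ → Set P) : Set P :=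
  fex fun N : ℕ => fall fun n : ℕ => fall fun m : ℕ => fall fun k : ℕ =>
    fimp (fand (fground (N ≤ n)) (fand (meets (g n m)) (meets (f n k)))) (fground (m ≤ k))

/-- `D` names a dominating family of functions indexed by `X`. -/
def IsDominatingFamily {X : Type} (D : X → ℕ → ℕ → Set P) : Set P :=
  fand (fall fun x => IsFun (D x))
    (fall fun g : ℕ → ℕ → Set P => fimp (IsFun g) (fex fun x => EventuallyLe g (D x)))

/-- In the extension the dominating number is `|X|`: some dominating family is indexed by `X`, and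
no dominating family is indexed by a (ground model) set of smaller cardinality. -/
def DominatingNumberIs (P : Type) [Preorder P] (X : Type) : Set P :=
  fand (fex fun D : X → ℕ → ℕ → Set P => IsDominatingFamily D)
    (fall fun Y : {Y : Type // #Y < #X} =>
      fnot (fex fun D : Y.1 → ℕ → ℕ → Set P => IsDominatingFamily D))

end Forcing

/-! ## The ground model -/

/-- The dominating number `𝔡`. -/
noncomputable def dominatingNumber : Cardinal.{0} :=
  sInf {c | ∃ F : Set (ℕ → ℕ), (∀ g : ℕ → ℕ, ∃ f ∈ F, ∃ N, ∀ n, N ≤ n → g n ≤ f n) ∧ #F = c}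

/-! ## Random forcing -/

/-- The fair coin measure on `{0, 1}`. -/
noncomputable def coin : Measure Bool := (PMF.uniformOfFintype Bool).toMeasure

instance : IsProbabilityMeasure coin := by unfold coin; infer_instance

/-- The product measure on `2 ^ (L × ω)`. -/
noncomputable def mu (L : Type) : Measure (L × ℕ → Bool) :=
  Measure.infinitePi (fun _ : L × ℕ => coin)

instance (L : Type) : IsProbabilityMeasure (mu L) := by unfold mu; infer_instance

/-- Random forcing, which adds `|L|` random reals: the conditions are the measurable subsets of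
`2 ^ (L × ω)` of positive measure, ordered by inclusion (its separative quotient is the measure
algebra without its least element). -/
def Random (L : Type) : Type := {A : Set (L × ℕ → Bool) // MeasurableSet A ∧ mu L A ≠ 0}

instance (L : Type) : Preorder (Random L) where
  le A B := A.1 ⊆ B.1
  le_refl A := Set.Subset.refl A.1
  le_trans A B C h h' := Set.Subset.trans h h'


/-! ## General facts on forcing -/

section

variable {P : Type} [Preorder P]

theorem mem_fex {ι : Sort*} {φ : ι → Set P} {p : P} :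
    p ∈ fex φ ↔ ∀ q ≤ p, ∃ r ≤ q, ∃ i, r ∈ φ i := by
  simp only [fex, fnot, fall, Set.mem_ofPred_eq, not_forall, not_not]
  constructor
  · intro h q hq
    obtain ⟨i, r, hr, h'⟩ := h q hq
    exact ⟨r, hr, i, h'⟩
  · intro h q hq
    obtain ⟨r, hr, i, h'⟩ := h q hq
    exact ⟨i, r, hr, h'⟩

theorem mem_fimp {φ ψ : Set P} {p : P} :
    p ∈ fimp φ ψ ↔ ∀ q ≤ p, q ∈ φ → ∃ r ≤ q, r ∈ ψ := by
  simp only [fimp, fnot, fand, Set.mem_ofPred_eq, not_and, not_forall, not_not]
  constructor
  · intro h q hq h'
    obtain ⟨r, hr, h''⟩ := h q hq h'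
    exact ⟨r, hr, h''⟩
  · intro h q hq h'
    obtain ⟨r, hr, h''⟩ := h q hq h'
    exact ⟨r, hr, h''⟩

theorem fnot_down {φ : Set P} {p q : P} (h : p ∈ fnot φ) (hq : q ≤ p) : q ∈ fnot φ :=
  fun r hr => h r (hr.trans hq)

theorem fex_down {ι : Sort*} {φ : ι → Set P} {p q : P} (h : p ∈ fex φ) (hq : q ≤ p) : q ∈ fex φ :=
  fnot_down h hq

theorem fimp_down {φ ψ : Set P} {p q : P} (h : p ∈ fimp φ ψ) (hq : q ≤ p) : q ∈ fimp φ ψ :=
  fnot_down h hq

theorem meets_down {N : Set P} {p q : P} (h : p ∈ meets N) (hq : q ≤ p) : q ∈ meets N :=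
  fun r hr => h r (hr.trans hq)

theorem isFun_down {X Y : Type} {R : X → Y → Set P} {p q : P} (h : p ∈ IsFun R) (hq : q ≤ p) :
    q ∈ IsFun R :=
  ⟨fun x => fex_down (h.1 x) hq, fun x y y' => fimp_down (h.2 x y y') hq⟩

/-- the canonical name of a ground model function -/
def check (h : ℕ → ℕ) : ℕ → ℕ → Set P := fun n m => {_s | h n = m}

theorem mem_meets_check {h : ℕ → ℕ} {n m : ℕ} {p : P} :
    p ∈ meets (check h n m) ↔ h n = m := by
  constructor
  · intro hp
    obtain ⟨_, _, _, hs, _⟩ := hp p le_rfl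
    exact hs
  · intro hp q _
    exact ⟨q, le_rfl, q, hp, le_rfl⟩

theorem isFun_check (h : ℕ → ℕ) (p : P) : p ∈ IsFun (check (P := P) h) := by
  constructor
  · intro n
    exact mem_fex.2 fun q _ => ⟨q, le_rfl, h n, mem_meets_check.2 rfl⟩
  · intro n m m'
    refine mem_fimp.2 fun q _ hq => ⟨q, le_rfl, ?_⟩
    exact (mem_meets_check.1 hq.1).symm.trans (mem_meets_check.1 hq.2)

end

/-! ## Random forcing -/

section

variable {L : Type}

theorem Random.le_def {A B : Random L} : A ≤ B ↔ A.1 ⊆ B.1 := Iff.rfl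

/-- Boolean values of names -/
theorem exists_val (N : Set (Random L)) : ∃ V : Set (L × ℕ → Bool), MeasurableSet V ∧
    ∀ p : Random L, p ∈ meets N ↔ mu L (p.1 \ V) = 0 := by
  classical
  let S : Set ℝ≥0∞ := {x | ∃ T : Set (Random L), T.Countable ∧ T ⊆ N ∧
    x = mu L (⋃ t ∈ T, t.1)}
  have hne : S.Nonempty := ⟨_, ∅, Set.countable_empty, Set.empty_subset _, rfl⟩
  obtain ⟨u, -, hu, huS⟩ := exists_seq_tendsto_sSup hne (OrderTop.bddAbove S)
  choose T hTc hTN hTu using huS
  let W : Set (Random L) := ⋃ n, T n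
  have hWc : W.Countable := Set.countable_iUnion hTc
  have hWN : W ⊆ N := Set.iUnion_subset hTN
  let V : Set (L × ℕ → Bool) := ⋃ t ∈ W, t.1
  have hVm : MeasurableSet V := MeasurableSet.biUnion hWc fun t _ => t.2.1
  have hle : sSup S ≤ mu L V := by
    refine le_of_tendsto' hu fun n => ?_
    rw [hTu n]
    apply measure_mono
    exact Set.biUnion_subset_biUnion_left (Set.subset_iUnion T n)
  have hr : ∀ r ∈ N, mu L (r.1 \ V) = 0 := by
    intro r hr
    have h1 : mu L (V ∪ r.1) ≤ mu L V := by
      refine le_trans ?_ hle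
      apply le_sSup
      refine ⟨insert r W, hWc.insert r, Set.insert_subset hr hWN, ?_⟩
      rw [Set.biUnion_insert, Set.union_comm]
    have h2 : mu L (V ∪ r.1) = mu L V + mu L (r.1 \ V) := by
      rw [← Set.union_sdiff_self]
      exact measure_union Set.disjoint_sdiff_right (r.2.1.diff hVm)
    rw [h2] at h1
    have h3 : mu L V ≠ ∞ := measure_ne_top _ _
    have := (ENNReal.add_le_add_iff_left h3).1 (h1.trans (le_of_eq (add_zero _).symm))
    exact le_antisymm this bot_le
  refine ⟨V, hVm, fun p => ⟨fun hp => ?_, fun hp q hq => ?_⟩⟩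
  · by_contra hne
    obtain ⟨r, hr1, s, hs, hrs⟩ := hp ⟨p.1 \ V, p.2.1.diff hVm, hne⟩ Set.sdiff_subset
    apply r.2.2
    refine measure_mono_null ?_ (hr s hs)
    intro ω hω
    exact ⟨hrs hω, (hr1 hω).2⟩
  · have h1 : mu L (q.1 \ V) = 0 := measure_mono_null (Set.sdiff_subset_sdiff_left hq) hp
    have h2 : mu L (q.1 ∩ V) ≠ 0 := by
      intro h
      apply q.2.2
      rw [← Set.inter_union_sdiff q.1 V]
      exact measure_union_null h h1
    have h3 : ∃ t ∈ W, mu L (q.1 ∩ t.1) ≠ 0 := by
      by_contra hcon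
      push Not at hcon
      apply h2
      rw [Set.inter_iUnion₂]
      exact (measure_biUnion_null_iff hWc).2 hcon
    obtain ⟨t, ht, h4⟩ := h3
    exact ⟨⟨q.1 ∩ t.1, q.2.1.inter t.2.1, h4⟩, Set.inter_subset_left, t, hWN ht,
      Set.inter_subset_right⟩

/-- the Boolean value of a name -/
noncomputable def val (N : Set (Random L)) : Set (L × ℕ → Bool) := Classical.choose (exists_val N)

theorem measurableSet_val (N : Set (Random L)) : MeasurableSet (val N) :=
  (Classical.choose_spec (exists_val N)).1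

theorem mem_meets_iff {N : Set (Random L)} {p : Random L} :
    p ∈ meets N ↔ mu L (p.1 \ val N) = 0 :=
  (Classical.choose_spec (exists_val N)).2 p

theorem measure_inter_val_ne_zero {N : Set (Random L)} {p : Random L} (hp : p ∈ meets N) :
    mu L (p.1 ∩ val N) ≠ 0 := by
  intro h
  apply p.2.2
  rw [← Set.inter_union_sdiff p.1 (val N)]
  exact measure_union_null h (mem_meets_iff.1 hp)

/-- the sets that depend only on the coordinates in `C` -/
@[reducible] def coordAlg (C : Set (L × ℕ)) : MeasurableSpace (L × ℕ → Bool) :=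
  ⨆ j ∈ C, MeasurableSpace.comap (fun ω : L × ℕ → Bool => ω j) inferInstance

theorem coordAlg_mono {C D : Set (L × ℕ)} (h : C ⊆ D) : coordAlg C ≤ coordAlg D :=
  biSup_mono h

theorem coordAlg_mono' {C D : Set L} (h : C ⊆ D) :
    coordAlg {j : L × ℕ | j.1 ∈ C} ≤ coordAlg {j : L × ℕ | j.1 ∈ D} :=
  coordAlg_mono fun _ hj => h hj

theorem coordAlg_le (C : Set (L × ℕ)) : coordAlg C ≤ MeasurableSpace.pi := by
  apply iSup₂_le
  intro j _
  exact (measurable_pi_apply j).comap_le

theorem measurable_coord {C : Set (L × ℕ)} {j : L × ℕ} (hj : j ∈ C) :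
    @Measurable _ _ (coordAlg C) _ (fun ω : L × ℕ → Bool => ω j) := by
  have h : MeasurableSpace.comap (fun ω : L × ℕ → Bool => ω j) inferInstance ≤ coordAlg C :=
    le_biSup (fun j => MeasurableSpace.comap (fun ω : L × ℕ → Bool => ω j) inferInstance) hj
  exact Measurable.of_comap_le h

theorem exists_countable_support {S : Set (L × ℕ → Bool)} (hS : MeasurableSet S) :
    ∃ C : Set L, C.Countable ∧ @MeasurableSet _ (coordAlg {j | j.1 ∈ C}) S := by
  let M : MeasurableSpace (L × ℕ → Bool) :=
    { MeasurableSet' := fun S => ∃ C : Set L, C.Countable ∧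
        @MeasurableSet _ (coordAlg {j | j.1 ∈ C}) S
      measurableSet_empty := ⟨∅, Set.countable_empty, @MeasurableSet.empty _ (coordAlg _)⟩
      measurableSet_compl := by
        rintro S ⟨C, hC, h⟩
        exact ⟨C, hC, @MeasurableSet.compl _ _ (coordAlg {j | j.1 ∈ C}) h⟩
      measurableSet_iUnion := by
        intro f hf
        choose C hC h using hf
        refine ⟨⋃ n, C n, Set.countable_iUnion hC, ?_⟩
        refine @MeasurableSet.iUnion _ _ (coordAlg _) _ _ fun n => ?_
        exact coordAlg_mono' (Set.subset_iUnion C n) _ (h n) }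
  have hle : (MeasurableSpace.pi : MeasurableSpace (L × ℕ → Bool)) ≤ M := by
    apply iSup_le
    intro j S hS
    refine ⟨{j.1}, Set.countable_singleton _, ?_⟩
    obtain ⟨T, hT, rfl⟩ := hS
    exact measurable_coord (C := {i | i.1 ∈ ({j.1} : Set L)}) (j := j) rfl hT
  exact hle _ hS

theorem coin_singleton (i : Bool) : coin {i} = 2⁻¹ := by
  unfold coin
  rw [PMF.toMeasure_apply_singleton _ _ (MeasurableSet.singleton i)]
  simp [PMF.uniformOfFintype_apply]

theorem iIndep_coord : iIndep (fun j : L × ℕ =>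
    MeasurableSpace.comap (fun ω : L × ℕ → Bool => ω j) inferInstance) (mu L) := by
  have := iIndepFun_infinitePi (P := fun _ : L × ℕ => coin) (X := fun _ x => x)
    (fun _ => measurable_id)
  exact this

theorem measure_const (a : L) (F : Finset ℕ) (i : Bool) :
    mu L {ω | ∀ n ∈ F, ω (a, n) = i} = 2⁻¹ ^ F.card := by
  classical
  have h := Measure.infinitePi_pi (fun _ : L × ℕ => coin) (s := F.image fun n => (a, n))
    (t := fun _ => {i}) (fun _ _ => MeasurableSet.singleton i)
  have e : {ω : L × ℕ → Bool | ∀ n ∈ F, ω (a, n) = i} =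
      Set.pi (F.image fun n => (a, n) : Finset (L × ℕ)) (fun _ => {i}) := by
    ext ω
    simp [Set.mem_pi]
  unfold mu
  rw [e, h, Finset.prod_const, coin_singleton, Finset.card_image_of_injective]
  intro x y hxy
  exact (Prod.mk.inj hxy).2

/-- A random real outside of the support is not constant on an infinite set. -/
theorem null_of_const {V : ℕ → Set (L × ℕ → Bool)} {C : Set L}
    (hV : ∀ n, @MeasurableSet _ (coordAlg {j | j.1 ∈ C}) (V n)) {a : L} (ha : a ∉ C) (i : Bool) :
    mu L {ω | (∀ n, ∃ m, n ≤ m ∧ ω ∈ V m) ∧ ∀ n, ω ∈ V n → ω (a, n) = i} = 0 := by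
  classical
  let f : (L × ℕ → Bool) → (ℕ → Bool) := fun ω m => decide (ω ∈ V m)
  let g : (L × ℕ → Bool) → (ℕ → Bool) := fun ω n => ω (a, n)
  have hf : @Measurable _ _ (coordAlg {j | j.1 ∈ C}) _ f := by
    refine @measurable_pi_lambda _ _ _ (coordAlg {j | j.1 ∈ C}) _ f fun m => ?_
    refine @measurable_to_bool _ (coordAlg {j | j.1 ∈ C}) _ ?_
    have : (fun ω => f ω m) ⁻¹' {true} = V m := by
      ext ω; simp [f]
    rw [this]; exact hV m
  have hg : @Measurable _ _ (coordAlg {j | j.1 = a}) _ g := by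
    refine @measurable_pi_lambda _ _ _ (coordAlg {j | j.1 = a}) _ g fun m => ?_
    exact measurable_coord (C := {j | j.1 = a}) (j := (a, m)) rfl
  have hdisj : Disjoint {j : L × ℕ | j.1 ∈ C} {j : L × ℕ | j.1 = a} := by
    rw [Set.disjoint_left]
    intro j hj hj'
    apply ha
    rw [← (show j.1 = a from hj')]
    exact hj
  have hind := indep_iSup_of_disjoint (fun j => (measurable_pi_apply j).comap_le)
    (iIndep_coord (L := L)) hdisj
  have hfg : IndepFun f g (mu L) :=
    indep_of_indep_of_le_right (indep_of_indep_of_le_left hind hf.comap_le) hg.comap_le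
  have hf' : Measurable f := hf.mono (coordAlg_le _) le_rfl
  have hg' : Measurable g := hg.mono (coordAlg_le _) le_rfl
  have hmap := (indepFun_iff_map_prod_eq_prod_map_map hf'.aemeasurable hg'.aemeasurable).1 hfg
  let Z : Set ((ℕ → Bool) × (ℕ → Bool)) :=
    {q | (∀ n, ∃ m, n ≤ m ∧ q.1 m = true) ∧ ∀ n, q.1 n = true → q.2 n = i}
  have hZ : MeasurableSet Z := by
    have h1 : ∀ m, MeasurableSet {q : (ℕ → Bool) × (ℕ → Bool) | q.1 m = true} := by
      intro m
      have hm : Measurable fun q : (ℕ → Bool) × (ℕ → Bool) => q.1 m :=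
        (measurable_pi_apply m).comp measurable_fst
      exact hm (MeasurableSet.singleton true)
    have h2 : ∀ m, MeasurableSet {q : (ℕ → Bool) × (ℕ → Bool) | q.2 m = i} := by
      intro m
      have hm : Measurable fun q : (ℕ → Bool) × (ℕ → Bool) => q.2 m :=
        (measurable_pi_apply m).comp measurable_snd
      exact hm (MeasurableSet.singleton i)
    have e : Z = (⋂ n, ⋃ m, ⋃ (_ : n ≤ m), {q : (ℕ → Bool) × (ℕ → Bool) | q.1 m = true}) ∩
        ⋂ n, ({q : (ℕ → Bool) × (ℕ → Bool) | q.1 n = true}ᶜ ∪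
          {q : (ℕ → Bool) × (ℕ → Bool) | q.2 n = i}) := by
      ext q
      simp only [Z, Set.mem_ofPred_eq, Set.mem_inter_iff, Set.mem_iInter, Set.mem_iUnion,
        exists_prop, Set.mem_union, Set.mem_compl_iff, imp_iff_not_or]
    rw [e]
    exact (MeasurableSet.iInter fun n => MeasurableSet.iUnion fun m =>
      MeasurableSet.iUnion fun _ => h1 m).inter
      (MeasurableSet.iInter fun n => (h1 n).compl.union (h2 n))
  have e1 : {ω : L × ℕ → Bool | (∀ n, ∃ m, n ≤ m ∧ ω ∈ V m) ∧ ∀ n, ω ∈ V n → ω (a, n) = i} =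
      (fun ω => (f ω, g ω)) ⁻¹' Z := by
    ext ω
    simp [Z, f, g]
  rw [e1, ← Measure.map_apply (hf'.prodMk hg') hZ, hmap, Measure.measure_prod_null hZ]
  refine Filter.Eventually.of_forall fun b => ?_
  show ((mu L).map g) (Prod.mk b ⁻¹' Z) = 0
  by_cases hb : ∀ n, ∃ m, n ≤ m ∧ b m = true
  · have hinf : {m | b m = true}.Infinite := by
      rw [Set.infinite_iff_exists_gt]
      intro n
      obtain ⟨m, hm, h⟩ := hb (n + 1)
      exact ⟨m, h, hm⟩
    have hk : ∀ k : ℕ, ((mu L).map g) (Prod.mk b ⁻¹' Z) ≤ 2⁻¹ ^ k := by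
      intro k
      obtain ⟨F, hF, hFk⟩ := hinf.exists_subset_card_eq k
      rw [← hFk, ← measure_const a F i, Measure.map_apply hg' (measurable_prodMk_left hZ)]
      apply measure_mono
      intro ω hω n hn
      exact hω.2 n (hF hn)
    have hlim : Filter.Tendsto (fun k : ℕ => (2⁻¹ : ℝ≥0∞) ^ k) Filter.atTop (nhds 0) :=
      ENNReal.tendsto_pow_atTop_nhds_zero_of_lt_one (by
        rw [ENNReal.inv_lt_one]; exact ENNReal.one_lt_two)
    exact le_antisymm (ge_of_tendsto' hlim hk) bot_le
  · have : Prod.mk b ⁻¹' Z = ∅ := by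
      ext x
      simp only [Set.mem_preimage, Set.mem_empty_iff_false, iff_false]
      exact fun hx => hb hx.1
    rw [this]; exact measure_empty

/-! ## Failure of the polarized relation -/

theorem not_polarized {K : Type} (hK : ℵ₀ < #K) (hKL : #K ≤ #L) (p : Random L) :
    p ∈ fnot (Polarized (Random L) K) := by
  classical
  obtain ⟨ι⟩ : Nonempty (K ↪ L) := by
    rwa [Cardinal.le_def] at hKL
  intro q _ hq
  let c : K → ℕ → Set (Random L) := fun a n => {s | ∀ ω ∈ s.1, ω (ι a, n) = true}
  obtain ⟨r1, _, A, h1⟩ := mem_fex.1 (hq c) q le_rfl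
  obtain ⟨r2, _, B, h2⟩ := mem_fex.1 h1 r1 le_rfl
  obtain ⟨p, _, i, hfull, hinf, hconst⟩ := mem_fex.1 h2 r2 le_rfl
  -- the countable support of the name `B`
  have hsupp := fun n => exists_countable_support (measurableSet_val (B n))
  choose C hCc hC using hsupp
  let D : Set L := ⋃ n, C n
  have hDc : D.Countable := Set.countable_iUnion hCc
  have hVD : ∀ n, @MeasurableSet _ (coordAlg {j | j.1 ∈ D}) (val (B n)) := fun n =>
    coordAlg_mono' (Set.subset_iUnion C n) _ (hC n)
  -- Step 1: `A` is contained in a countable set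
  have step1 : ∀ a, ι a ∉ D → p ∈ fnot (meets (A a)) := by
    intro a ha q hq hqA
    have hi1 : ∀ n, mu L (q.1 \ ⋃ m, ⋃ (_ : n ≤ m), val (B m)) = 0 := by
      intro n
      by_contra hne
      have hm : MeasurableSet (⋃ m, ⋃ (_ : n ≤ m), val (B m)) :=
        MeasurableSet.iUnion fun m => MeasurableSet.iUnion fun _ => measurableSet_val _
      obtain ⟨s, hs, m, hnm, hsB⟩ := mem_fex.1 (hinf n)
        ⟨q.1 \ ⋃ m, ⋃ (_ : n ≤ m), val (B m), q.2.1.diff hm, hne⟩ (Set.sdiff_subset.trans hq)
      apply s.2.2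
      refine measure_mono_null ?_ (mem_meets_iff.1 hsB)
      intro ω hω
      refine ⟨hω, fun h => (hs hω).2 ?_⟩
      exact Set.mem_iUnion.2 ⟨m, Set.mem_iUnion.2 ⟨hnm, h⟩⟩
    have hi2 : ∀ n, mu L (q.1 ∩ val (B n) ∩ {ω | ω (ι a, n) ≠ i}) = 0 := by
      intro n
      by_contra hne
      have hm : MeasurableSet {ω : L × ℕ → Bool | ω (ι a, n) ≠ i} := by
        have hm' : Measurable fun ω : L × ℕ → Bool => ω (ι a, n) := measurable_pi_apply _
        exact (hm' (MeasurableSet.singleton i)).compl
      let r : Random L := ⟨q.1 ∩ val (B n) ∩ {ω | ω (ι a, n) ≠ i},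
        (q.2.1.inter (measurableSet_val _)).inter hm, hne⟩
      have hrq : r ≤ q := Set.inter_subset_left.trans Set.inter_subset_left
      have hrB : r ∈ meets (B n) := by
        rw [mem_meets_iff]
        have : r.1 \ val (B n) = ∅ := by
          ext ω
          simp only [Set.mem_sdiff, Set.mem_empty_iff_false, iff_false, not_and, not_not]
          exact fun h => h.1.2
        rw [this]; exact measure_empty
      obtain ⟨s, hs, hs1, hs2⟩ := mem_fimp.1 (hconst a n) r (hrq.trans hq)
        ⟨meets_down hqA hrq, hrB⟩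
      rcases i with _ | _
      · -- the colour is `false`
        have hsc : s ∈ meets (c a n) := by
          intro t ht
          refine ⟨t, le_rfl, t, ?_, le_rfl⟩
          intro ω hω
          have := (hs (ht hω)).2
          simpa using this
        obtain ⟨_, _, h⟩ := mem_fimp.1 hs1 s le_rfl hsc
        exact absurd h (by simp [fground])
      · obtain ⟨s', hs', h⟩ := mem_fimp.1 hs2 s le_rfl (by simp [fground])
        obtain ⟨t, ht, w, hw, htw⟩ := h s' le_rfl
        obtain ⟨ω, hω⟩ : t.1.Nonempty := by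
          rw [Set.nonempty_iff_ne_empty]
          intro h0
          apply t.2.2
          rw [h0]; exact measure_empty
        have h3 := hw ω (htw hω)
        have h4 := (hs (hs' (ht hω))).2
        exact h4 h3
    apply q.2.2
    have hZ := null_of_const (V := fun n => val (B n)) hVD ha i
    have hsub : q.1 ⊆ {ω | (∀ n, ∃ m, n ≤ m ∧ ω ∈ val (B m)) ∧
        ∀ n, ω ∈ val (B n) → ω (ι a, n) = i} ∪
        ((⋃ n, (q.1 \ ⋃ m, ⋃ (_ : n ≤ m), val (B m))) ∪
          ⋃ n, (q.1 ∩ val (B n) ∩ {ω | ω (ι a, n) ≠ i})) := by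
      intro ω hω
      by_contra hcon
      simp only [Set.mem_union, not_or, Set.mem_iUnion, not_exists] at hcon
      obtain ⟨h1, h2, h3⟩ := hcon
      apply h1
      constructor
      · intro n
        have := h2 n
        simp only [Set.mem_sdiff, not_and, not_not] at this
        have := this hω
        simp only [Set.mem_iUnion, exists_prop] at this
        exact this
      · intro n hn
        by_contra hne
        exact h3 n ⟨⟨hω, hn⟩, hne⟩
    refine measure_mono_null hsub ?_
    exact measure_union_null hZ (measure_union_null (measure_iUnion_null hi1)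
      (measure_iUnion_null hi2))
  -- Step 2: no injection from `K` into a countable set
  obtain ⟨r, hr, R, hfun, hinto, hinj⟩ := mem_fex.1 hfull p le_rfl
  have hx : ∀ x : K, ∃ s : Random L, s ≤ r ∧ ∃ y : K, ι y ∈ D ∧ s ∈ meets (R x y) := by
    intro x
    obtain ⟨s, hs, y, hy⟩ := mem_fex.1 (hfun.1 x) r le_rfl
    obtain ⟨s', hs', h⟩ := mem_fimp.1 (hinto x y) s hs hy
    refine ⟨s, hs, y, ?_, hy⟩
    by_contra hD
    exact step1 y hD s' ((hs'.trans hs).trans hr) h
  choose s hs y hy hsy using hx
  have hC' : {z : K | ι z ∈ D}.Countable := hDc.preimage ι.injective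
  have hunc : ∃ z, ¬ {x : K | y x = z}.Countable := by
    by_contra hcon
    push Not at hcon
    have : (Set.univ : Set K) = ⋃ z ∈ {z : K | ι z ∈ D}, {x : K | y x = z} := by
      ext x
      simp only [Set.mem_univ, Set.mem_iUnion, true_iff]
      exact ⟨y x, hy x, rfl⟩
    have hcount : (Set.univ : Set K).Countable := by
      rw [this]
      exact hC'.biUnion fun z _ => hcon z
    have := Cardinal.le_aleph0_iff_set_countable.2 hcount
    rw [Cardinal.mk_univ] at this
    exact absurd hK (not_lt.2 this)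
  obtain ⟨z, hz⟩ := hunc
  apply hz
  have hd : Pairwise (Function.onFun (AEDisjoint (mu L)) fun x : {x : K | y x = z} => (s x).1) := by
    intro x x' hxx'
    show mu L ((s x).1 ∩ (s x').1) = 0
    by_contra hne
    let t : Random L := ⟨(s x).1 ∩ (s x').1, (s x).2.1.inter (s x').2.1, hne⟩
    have ht1 : t ≤ s x := Set.inter_subset_left
    have ht2 : t ≤ s x' := Set.inter_subset_right
    have e1 : y x = z := x.2
    have e2 : y x' = z := x'.2
    have m1 : t ∈ meets (R x z) := by
      have := hsy x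
      rw [e1] at this
      exact meets_down this ht1
    have m2 : t ∈ meets (R x' z) := by
      have := hsy x'
      rw [e2] at this
      exact meets_down this ht2
    obtain ⟨_, _, h⟩ := mem_fimp.1 (hinj x x' z) t (ht1.trans (hs x)) ⟨m1, m2⟩
    exact hxx' (Subtype.ext h)
  have := Measure.countable_meas_pos_of_disjoint_iUnion₀ (μ := mu L)
    (As := fun x : {x : K | y x = z} => (s x).1) (fun x => (s x).2.1.nullMeasurableSet) hd
  have e : {x : {x : K | y x = z} | 0 < mu L ((s x).1)} = Set.univ := by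
    ext x
    simp only [Set.mem_ofPred_eq, Set.mem_univ, iff_true]
    exact pos_iff_ne_zero.2 (s x).2.2
  rw [e] at this
  exact Set.countable_coe_iff.1 (Set.countable_univ_iff.1 this)

/-! ## The dominating number -/

/-- Random forcing is `ω ^ ω`-bounding. -/
theorem exists_bound {R : ℕ → ℕ → Set (Random L)} {p : Random L} (hp : p ∈ IsFun R) :
    ∃ h : ℕ → ℕ, p ∈ EventuallyLe R (check h) := by
  classical
  let V : ℕ → ℕ → Set (L × ℕ → Bool) := fun n m => val (R n m)
  have hVm : ∀ n m, MeasurableSet (V n m) := fun n m => measurableSet_val _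
  have hdis : ∀ n m m', m ≠ m' → mu L (p.1 ∩ (V n m ∩ V n m')) = 0 := by
    intro n m m' hne
    by_contra hcon
    let t : Random L := ⟨p.1 ∩ (V n m ∩ V n m'), p.2.1.inter ((hVm n m).inter (hVm n m')), hcon⟩
    have ht : t ≤ p := Set.inter_subset_left
    have h1 : t ∈ meets (R n m) := by
      rw [mem_meets_iff]
      have : t.1 \ val (R n m) = ∅ := by
        ext ω
        simp only [Set.mem_sdiff, Set.mem_empty_iff_false, iff_false, not_and, not_not]
        exact fun h => h.2.1
      rw [this]; exact measure_empty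
    have h2 : t ∈ meets (R n m') := by
      rw [mem_meets_iff]
      have : t.1 \ val (R n m') = ∅ := by
        ext ω
        simp only [Set.mem_sdiff, Set.mem_empty_iff_false, iff_false, not_and, not_not]
        exact fun h => h.2.2
      rw [this]; exact measure_empty
    obtain ⟨_, _, h⟩ := mem_fimp.1 (hp.2 n m m') t ht ⟨h1, h2⟩
    exact hne h
  let T : ℕ → ℕ → Set (L × ℕ → Bool) := fun n h => p.1 ∩ ⋃ m, ⋃ (_ : h < m), V n m
  have hTm : ∀ n h, MeasurableSet (T n h) := fun n h =>
    p.2.1.inter (MeasurableSet.iUnion fun m => MeasurableSet.iUnion fun _ => hVm n m)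
  have hTlim : ∀ n, Filter.Tendsto (fun h => mu L (T n h)) Filter.atTop (nhds 0) := by
    intro n
    have hanti : Antitone (T n) := by
      intro h h' hh ω hω
      refine ⟨hω.1, ?_⟩
      obtain ⟨m, hm⟩ := Set.mem_iUnion.1 hω.2
      obtain ⟨hm1, hm2⟩ := Set.mem_iUnion.1 hm
      exact Set.mem_iUnion.2 ⟨m, Set.mem_iUnion.2 ⟨lt_of_le_of_lt hh hm1, hm2⟩⟩
    have h0 : mu L (⋂ h, T n h) = 0 := by
      have hsub : (⋂ h, T n h) ⊆ ⋃ m, ⋃ m', ⋃ (_ : m ≠ m'), (p.1 ∩ (V n m ∩ V n m')) := by
        intro ω hω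
        rw [Set.mem_iInter] at hω
        obtain ⟨m, hm⟩ := Set.mem_iUnion.1 (hω 0).2
        obtain ⟨_, hm2⟩ := Set.mem_iUnion.1 hm
        obtain ⟨m', hm'⟩ := Set.mem_iUnion.1 (hω m).2
        obtain ⟨hm3, hm4⟩ := Set.mem_iUnion.1 hm'
        exact Set.mem_iUnion.2 ⟨m, Set.mem_iUnion.2 ⟨m', Set.mem_iUnion.2
          ⟨hm3.ne, (hω 0).1, hm2, hm4⟩⟩⟩
      refine measure_mono_null hsub ?_
      exact measure_iUnion_null fun m => measure_iUnion_null fun m' =>
        measure_iUnion_null fun hne => hdis n m m' hne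
    rw [← h0]
    exact tendsto_measure_iInter_atTop (fun h => (hTm n h).nullMeasurableSet) hanti
      ⟨0, measure_ne_top _ _⟩
  have hex : ∀ n, ∃ h, mu L (T n h) < 2⁻¹ ^ n := by
    intro n
    have : (0 : ℝ≥0∞) < 2⁻¹ ^ n := ENNReal.pow_pos (by simp) n
    exact ((hTlim n).eventually (gt_mem_nhds this)).exists
  choose h hh using hex
  have hsum : ∑' n, mu L (T n (h n)) ≠ ∞ := by
    refine ne_top_of_le_ne_top ?_ (ENNReal.tsum_le_tsum fun n => (hh n).le)
    rw [ENNReal.tsum_geometric]
    simp
  have hfreq := measure_setOfPred_frequently_eq_zero hsum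
  refine ⟨h, mem_fex.2 fun q hq => ?_⟩
  have hN : ∃ N, mu L (q.1 \ ⋃ n, ⋃ (_ : N ≤ n), T n (h n)) ≠ 0 := by
    by_contra hcon
    push Not at hcon
    apply q.2.2
    refine measure_mono_null (t := {x | ∃ᶠ n in Filter.atTop, x ∈ T n (h n)} ∪
      ⋃ N, (q.1 \ ⋃ n, ⋃ (_ : N ≤ n), T n (h n))) ?_
      (measure_union_null hfreq (measure_iUnion_null hcon))
    intro ω hω
    by_contra hcon2
    simp only [Set.mem_union, not_or, Set.mem_iUnion, not_exists] at hcon2
    apply hcon2.1
    show ∃ᶠ n in Filter.atTop, ω ∈ T n (h n)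
    rw [Filter.frequently_atTop]
    intro N
    have := hcon2.2 N
    simp only [Set.mem_sdiff, not_and, not_not] at this
    have := this hω
    simp only [Set.mem_iUnion, exists_prop] at this
    exact this
  obtain ⟨N, hN⟩ := hN
  have hm : MeasurableSet (⋃ n, ⋃ (_ : N ≤ n), T n (h n)) :=
    MeasurableSet.iUnion fun n => MeasurableSet.iUnion fun _ => hTm n _
  refine ⟨⟨q.1 \ ⋃ n, ⋃ (_ : N ≤ n), T n (h n), q.2.1.diff hm, hN⟩, Set.sdiff_subset, N, ?_⟩
  intro n m k
  refine mem_fimp.2 fun s hs hs' => ⟨s, le_rfl, ?_⟩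
  obtain ⟨hNn, hsm, hsk⟩ := hs'
  have hk := mem_meets_check.1 hsk
  show m ≤ k
  by_contra hlt
  push Not at hlt
  apply measure_inter_val_ne_zero hsm
  have : s.1 ∩ val (R n m) = ∅ := by
    ext ω
    simp only [Set.mem_inter_iff, Set.mem_empty_iff_false, iff_false, not_and]
    intro hω hω2
    apply (hs hω).2
    refine Set.mem_iUnion.2 ⟨n, Set.mem_iUnion.2 ⟨hNn, hq (hs hω).1, ?_⟩⟩
    refine Set.mem_iUnion.2 ⟨m, Set.mem_iUnion.2 ⟨?_, hω2⟩⟩
    rw [hk]; exact hlt
  rw [this]; exact measure_empty

theorem exists_dominating {K : Type} (hK : #K = dominatingNumber) :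
    ∃ D : K → ℕ → ℕ, ∀ g : ℕ → ℕ, ∃ x, ∃ N, ∀ n, N ≤ n → g n ≤ D x n := by
  have hne : {c | ∃ F : Set (ℕ → ℕ), (∀ g : ℕ → ℕ, ∃ f ∈ F, ∃ N, ∀ n, N ≤ n → g n ≤ f n) ∧
      #F = c}.Nonempty := ⟨_, Set.univ, fun g => ⟨g, Set.mem_univ g, 0, fun n _ => le_rfl⟩, rfl⟩
  obtain ⟨F, hF, hc⟩ := csInf_mem hne
  have hc' : #F = #K := by rw [hc, hK]; rfl
  obtain ⟨e⟩ := Cardinal.eq.1 hc'
  refine ⟨fun x => (e.symm x).1, fun g => ?_⟩
  obtain ⟨f, hf, N, hN⟩ := hF g
  exact ⟨e ⟨f, hf⟩, N, by simpa using hN⟩

theorem exists_not_dominated {Y : Type} (hY : #Y < dominatingNumber) (h : Y → ℕ → ℕ) :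
    ∃ g : ℕ → ℕ, ∀ y, ∀ N, ∃ n, N ≤ n ∧ h y n < g n := by
  by_contra hcon
  push Not at hcon
  have : dominatingNumber ≤ #(Set.range h) := by
    apply csInf_le'
    refine ⟨Set.range h, fun g => ?_, rfl⟩
    obtain ⟨y, N, hN⟩ := hcon g
    exact ⟨h y, Set.mem_range_self y, N, hN⟩
  exact absurd (this.trans Cardinal.mk_range_le) (not_le.2 hY)

theorem dominatingNumberIs {K : Type} (hK : #K = dominatingNumber) (p : Random L) :
    p ∈ DominatingNumberIs (Random L) K := by
  constructor
  · obtain ⟨D, hD⟩ := exists_dominating hK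
    refine mem_fex.2 fun q _ => ⟨q, le_rfl, fun x => check (D x), fun x => isFun_check _ _, ?_⟩
    intro g
    refine mem_fimp.2 fun r _ hr => ⟨r, le_rfl, ?_⟩
    obtain ⟨h, hh⟩ := exists_bound hr
    obtain ⟨x, N, hN⟩ := hD h
    refine mem_fex.2 fun s hs => ?_
    obtain ⟨t, ht, M, hM⟩ := mem_fex.1 hh s hs
    refine ⟨t, ht, x, mem_fex.2 fun u hu => ⟨u, le_rfl, max M N, ?_⟩⟩
    intro n m k
    refine mem_fimp.2 fun v hv hv' => ?_
    obtain ⟨h1, h2, h3⟩ := hv'
    obtain ⟨w, hw, h4⟩ := mem_fimp.1 (hM n m (h n)) v (hv.trans hu)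
      ⟨(le_max_left M N).trans h1, h2, mem_meets_check.2 rfl⟩
    refine ⟨w, hw, ?_⟩
    have h5 : D x n = k := mem_meets_check.1 h3
    show m ≤ k
    rw [← h5]
    exact le_trans h4 (hN n ((le_max_right M N).trans h1))
  · rintro ⟨Y, hY⟩ q _ hq
    obtain ⟨r, _, D, hfun, hD⟩ := mem_fex.1 hq q le_rfl
    have hb := fun y => exists_bound (hfun y)
    choose h hh using hb
    rw [hK] at hY
    obtain ⟨g, hg⟩ := exists_not_dominated hY h
    obtain ⟨s, hs, hs'⟩ := mem_fimp.1 (hD (check g)) r le_rfl (isFun_check g r)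
    obtain ⟨t, ht, y, hy⟩ := mem_fex.1 hs' s le_rfl
    obtain ⟨t1, ht1, N1, hN1⟩ := mem_fex.1 hy t le_rfl
    obtain ⟨t2, ht2, N2, hN2⟩ := mem_fex.1 (hh y) t1 ((ht1.trans ht).trans hs)
    obtain ⟨n, hn, hlt⟩ := hg y (max N1 N2)
    obtain ⟨t3, ht3, k, hk⟩ := mem_fex.1 ((hfun y).1 n) t2 (((ht2.trans ht1).trans ht).trans hs)
    obtain ⟨t4, ht4, h4⟩ := mem_fimp.1 (hN1 n (g n) k) t3 (ht3.trans ht2)
      ⟨(le_max_left _ _).trans hn, mem_meets_check.2 rfl, hk⟩
    obtain ⟨t5, ht5, h5⟩ := mem_fimp.1 (hN2 n k (h y n)) t3 ht3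
      ⟨(le_max_right _ _).trans hn, hk, mem_meets_check.2 rfl⟩
    have h6 : g n ≤ k := h4
    have h7 : k ≤ h y n := h5
    omega

end

/-- If `κ = 𝔡` and `λ > κ`, then every condition of the forcing that adds `λ` random reals forces that
`𝔡 = κ` and that the relation `(𝔡 over ω) → (𝔡 over ω)^{1,1}_2` fails.  More generally the relation fails
in the extension at every uncountable `κ ≤ λ`. -/
theorem result :
    (∀ K L : Type, #K = dominatingNumber → #K < #L → ∀ p : Random L,
      p ∈ DominatingNumberIs (Random L) K ∧ p ∈ fnot (Polarized (Random L) K)) ∧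
    (∀ K L : Type, ℵ₀ < #K → #K ≤ #L → ∀ p : Random L, p ∈ fnot (Polarized (Random L) K)) := by
  refine ⟨fun K L hK hL p => ⟨dominatingNumberIs hK p, not_polarized ?_ hL.le p⟩,
    fun K L hK hL p => not_polarized hK hL p⟩
  rw [hK]
  by_contra hcon
  rw [not_lt] at hcon
  have hK' : #K ≤ ℵ₀ := by rw [hK]; exact hcon
  have hc : Countable K := Cardinal.mk_le_aleph0_iff.1 hK'
  obtain ⟨D, hD⟩ := exists_dominating hK
  obtain ⟨x0, _⟩ := hD (fun _ => 0)
  have : Nonempty K := ⟨x0⟩
  obtain ⟨f, hf⟩ := exists_surjective_nat K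
  obtain ⟨x, N, hN⟩ := hD (fun n => (Finset.range (n + 1)).sup (fun i => D (f i) n) + 1)
  obtain ⟨i, rfl⟩ := hf x
  have h1 := hN (max N i) (le_max_left _ _)
  have h2 : D (f i) (max N i) ≤
      (Finset.range (max N i + 1)).sup (fun j => D (f j) (max N i)) :=
    Finset.le_sup (f := fun j => D (f j) (max N i))
      (Finset.mem_range.2 (Nat.lt_succ_of_le (le_max_right N i)))
  omega

end Pool.Agent.Results.MP_95a70f_lc.RandomRealsFail
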